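import Mathlib

/-!
# The degree-2 Davenport constant of `ℤ/n`
-/

namespace H28Dav

/-- `HasTwo S`: the sequence `S` over `ZMod n` has a subsequence `T` with at least two terms whose second elementary
symmetric polynomial `e₂(T) = ∑_{i<j} b_i b_j` is zero -/
def HasTwo {n : ℕ} (S : Multiset (ZMod n)) : Prop := ∃ T : Multiset (ZMod n), T ≤ S ∧ 2 ≤ T.card ∧ T.esymm 2 = 0

/-- the degree-2 Davenport constant: the least positive `D` such that every sequence of length `D` over `ZMod n` has a
subsequence with at least two terms and `e₂ = 0` -/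
noncomputable def dav (n : ℕ) : ℕ := sInf {D : ℕ | 0 < D ∧ ∀ S : Multiset (ZMod n), S.card = D → HasTwo S}

end H28Dav
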