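import Pool.Agent.H28.Dav.Parab

/-!
# Sequences without `T` such that `(∑_T a)² = ∑_T a²`
-/

open Finset

namespace H28Dav

variable {p : ℕ}

/-- no subset with at least two elements satisfies `(∑ a)² = ∑ a²` -/
def Free2 {q : ℕ} {ι : Type*} (a : ι → ZMod q) : Prop :=
  ∀ T : Finset ι, 2 ≤ #T → (∑ i ∈ T, a i) ^ 2 ≠ ∑ i ∈ T, a i ^ 2

/-- the exponent of an element -/
def gg {q : ℕ} (a : ZMod q) : ℕ × ℕ := (a.val, a.val ^ 2)

/-- the product -/
noncomputable def PP (p : ℕ) {q : ℕ} {ι : Type*} [Fintype ι] (a : ι → ZMod q) : RR p := ∏ i, (1 - XX (gg (a i)))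

theorem PP_expand {q : ℕ} {ι : Type*} [Fintype ι] [DecidableEq ι] (a : ι → ZMod q) :
    PP p a = ∑ T ∈ (univ : Finset ι).powerset, (-1) ^ #T * XX (∑ i ∈ T, gg (a i)) := by
  unfold PP
  have e1 : ∀ i, (1 : RR p) - XX (gg (a i)) = - XX (gg (a i)) + 1 := fun i => by ring
  simp only [e1]
  rw [Finset.prod_add]
  refine Finset.sum_congr rfl fun T _ => ?_
  rw [Finset.prod_const_one, mul_one, Finset.prod_neg, XX_sum]

theorem Lam_neg_pow (φ : ℕ × ℕ → ZMod p) (n : ℕ) (r : RR p) : Lam φ ((-1) ^ n * r) = (-1) ^ n * Lam φ r := by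
  rcases Nat.even_or_odd n with h | h
  · rw [h.neg_one_pow, h.neg_one_pow, one_mul, one_mul]
  · rw [h.neg_one_pow, h.neg_one_pow, neg_one_mul, neg_one_mul, Lam_neg]

theorem Lam_PP [Fact p.Prime] {m : ℕ} {ι : Type*} [Fintype ι] (a : ι → ZMod (p ^ (m + 1))) (ha : Free2 a)
    (w : ZMod p → ZMod p) : Lam (phi m w) (PP p a) = w 0 - ∑ i, w ((a i).val : ZMod p) := by
  classical
  have hne : NeZero (p ^ (m + 1)) := ⟨(Nat.pow_pos (Fact.out : p.Prime).pos).ne'⟩
  rw [PP_expand, Lam_sum]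
  have key : ∀ T ∈ (univ : Finset ι).powerset, Lam (phi m w) ((-1) ^ #T * XX (∑ i ∈ T, gg (a i))) =
      (if T = ∅ then w 0 else 0) - ∑ i, (if T = {i} then w ((a i).val : ZMod p) else 0) := by
    intro T _
    rw [Lam_neg_pow, Lam_XX]
    rcases Nat.lt_or_ge #T 2 with hT | hT
    · rcases Nat.lt_or_ge #T 1 with hT1 | hT1
      · have h0 : T = ∅ := by
          rw [← card_eq_zero]
          omega
        subst h0
        rw [if_pos rfl, sum_empty, card_empty, pow_zero, one_mul]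
        have h1 : ∀ i : ι, (∅ : Finset ι) ≠ {i} := fun i h => (singleton_ne_empty i) h.symm
        simp only [if_neg (h1 _)]
        unfold phi
        simp
      · obtain ⟨j, rfl⟩ := card_eq_one.1 (by omega : #T = 1)
        rw [if_neg (singleton_ne_empty j), card_singleton, sum_singleton, pow_one]
        have h1 : ∀ i : ι, (({j} : Finset ι) = {i}) ↔ j = i := fun i => singleton_inj
        simp only [h1]
        rw [Finset.sum_ite_eq, if_pos (mem_univ j)]
        unfold phi gg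
        simp
    · have h1 : T ≠ ∅ := by
        rintro rfl
        simp at hT
      have h2 : ∀ i : ι, T ≠ {i} := by
        rintro i rfl
        simp at hT
      rw [if_neg h1]
      simp only [if_neg (h2 _)]
      rw [sum_const_zero, sub_zero]
      unfold phi
      rw [if_neg, mul_zero]
      intro h3
      apply ha T hT
      have e1 : (∑ i ∈ T, gg (a i)).1 = ∑ i ∈ T, (a i).val := by
        rw [Prod.fst_sum]
        rfl
      have e2 : (∑ i ∈ T, gg (a i)).2 = ∑ i ∈ T, (a i).val ^ 2 := by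
        rw [Prod.snd_sum]
        rfl
      rw [e1, e2] at h3
      push_cast at h3
      simpa using h3
  rw [Finset.sum_congr rfl key, Finset.sum_sub_distrib, Finset.sum_ite_eq', if_pos (by simp), Finset.sum_comm]
  congr 1
  refine Finset.sum_congr rfl fun i _ => ?_
  rw [Finset.sum_ite_eq', if_pos (by simp)]

/-- if the product lies in `JJ ^ (p^m)` -/
theorem count_eq [Fact p.Prime] {m : ℕ} {ι : Type*} [Fintype ι] (a : ι → ZMod (p ^ (m + 1))) (ha : Free2 a)
    (hP : PP p a ∈ JJ p ^ (p ^ m)) (w : ZMod p → ZMod p) : w 0 - ∑ i, w ((a i).val : ZMod p) = 0 := by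
  rw [← Lam_PP a ha w]
  refine Lam_JJ (CPD_phi m w) ?_
  rwa [Nat.sub_add_cancel (Nat.pow_pos (Fact.out : p.Prime).pos)]

/-- the general upper bound -/
theorem upper [Fact p.Prime] (hp : p ≠ 2) (m : ℕ) {ι : Type*} [Fintype ι] (a : ι → ZMod (p ^ (m + 1)))
    (hcard : Fintype.card ι = p ^ (m + 1) + p - 1) : ¬ Free2 a := by
  intro ha
  have hp1 := (Fact.out : p.Prime).one_lt
  have h1 := count_eq a ha (by
    refine prod_mem_JJ _ _ (fun i _ => one_sub_mem _) ?_
    rw [card_univ, hcard, pow_succ']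
    omega) (fun _ => 1)
  rw [sum_const, card_univ, hcard, nsmul_eq_mul, mul_one] at h1
  have h2 : ((p ^ (m + 1) + p - 1 : ℕ) : ZMod p) = -1 := by
    have h3 : ((p ^ (m + 1) + p - 1 + 1 : ℕ) : ZMod p) = 0 := by
      rw [Nat.sub_add_cancel (by have := Nat.zero_le (p ^ (m + 1)); omega)]
      push_cast
      rw [pow_succ, CharP.cast_eq_zero (ZMod p) p]
      ring
    push_cast at h3
    exact eq_neg_of_add_eq_zero_left h3
  rw [h2] at h1
  have h3 : ((2 : ℕ) : ZMod p) = 0 := by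
    push_cast
    linear_combination h1
  rw [CharP.cast_eq_zero_iff (ZMod p) p] at h3
  exact hp ((Nat.prime_dvd_prime_iff_eq Fact.out Nat.prime_two).1 h3)

section three

instance : Fact (Nat.Prime 3) := ⟨Nat.prime_three⟩

theorem gg_congr {q : ℕ} (a : ZMod q) : ∃ h : ℕ × ℕ, gg a = (a.val % 3, (a.val % 3) ^ 2) + 3 • h := by
  obtain ⟨b, hb⟩ : ∃ b, a.val = a.val % 3 + 3 * b := ⟨a.val / 3, (Nat.mod_add_div _ _).symm⟩
  obtain ⟨c, hc⟩ : ∃ c, c = a.val % 3 := ⟨_, rfl⟩
  refine ⟨(b, 2 * c * b + 3 * b ^ 2), ?_⟩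
  unfold gg
  rw [← hc] at hb ⊢
  rw [hb]
  ext
  · simp
  · simp
    ring

theorem sub_cube (g : ℕ × ℕ) : (1 - XX (p := 3) g) ^ 3 = -(XX (3 • g) - 1) := by
  have h1 := sub_one_pow (p := 3) g
  have h2 : (1 - XX (p := 3) g) ^ 3 = -((XX (p := 3) g - 1) ^ 3) := by ring
  rw [h2, h1]

theorem one_sub_pow_mem (g : ℕ × ℕ) (n : ℕ) : (1 - XX (p := 3) g) ^ n ∈ JJ 3 ^ (n / 3) := by
  have h1 : (1 - XX (p := 3) g) ^ n = ((1 - XX (p := 3) g) ^ 3) ^ (n / 3) * (1 - XX (p := 3) g) ^ (n % 3) := by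
    rw [← pow_mul, ← pow_add, Nat.div_add_mod]
  rw [h1]
  refine Ideal.mul_mem_right _ _ (Ideal.pow_mem_pow ?_ _)
  rw [sub_cube]
  exact (JJ 3).neg_mem (mem_JJ g)

/-- a factor in a special direction -/
theorem Lam_special {m : ℕ} (hm : 1 ≤ m) (w : ZMod 3 → ZMod 3) (g : ℕ × ℕ)
    (hw : ∀ s : ZMod 3, w s ≠ 0 → (g.2 : ZMod 3) = 2 * s * g.1) {r : RR 3} (hr : r ∈ JJ 3 ^ (3 ^ m - 2)) :
    Lam (phi m w) (r * (1 - XX g) ^ 3) = 0 := by
  have h3 : 3 ≤ 3 ^ m := Nat.le_self_pow (by omega) 3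
  rw [sub_cube, mul_neg, Lam_neg, Lam_mul_XX_sub, neg_eq_zero]
  refine Lam_JJ (CPD_phi_diff (le_refl 3) hm w g.1 g.2 hw) ?_
  rwa [show 3 ^ m - 3 + 1 = 3 ^ m - 2 by omega]

/-- for `p = 3` there is no sequence of length `3^(m+1)` -/
theorem upper_three {m : ℕ} (hm : 1 ≤ m) {ι : Type*} [Fintype ι] (a : ι → ZMod (3 ^ (m + 1)))
    (hcard : Fintype.card ι = 3 ^ (m + 1)) : ¬ Free2 a := by
  classical
  intro ha
  have h3 : 3 ≤ 3 ^ m := Nat.le_self_pow (by omega) 3
  have hq : 3 ^ (m + 1) = 3 * 3 ^ m := pow_succ' 3 m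
  obtain ⟨M, hM⟩ : ∃ M, M = 3 ^ m := ⟨_, rfl⟩
  have hcast : ((Fintype.card ι : ℕ) : ZMod 3) = 0 := by
    rw [hcard, hq]
    push_cast
    rw [show (3 : ZMod 3) = 0 by decide, zero_mul]
  -- the product does not lie in `JJ ^ M`
  have hnot : PP 3 a ∉ JJ 3 ^ (3 ^ m) := by
    intro h
    have h1 := count_eq a ha h (fun _ => 1)
    rw [sum_const, card_univ, nsmul_eq_mul, mul_one, hcast] at h1
    exact absurd h1 (by decide)
  -- there is no multiple of 3
  have h0 : ∀ i, (a i).val % 3 ≠ 0 := by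
    intro i hi
    apply hnot
    have h1 : PP 3 a = (∏ j ∈ univ.erase i, (1 - XX (gg (a j)))) * (1 - XX (gg (a i))) := by
      unfold PP
      rw [Finset.prod_erase_mul _ _ (mem_univ i)]
    rw [h1, ← hM, show M = (M - 1) + 1 by omega, pow_succ]
    refine Ideal.mul_mem_mul (prod_mem_JJ _ _ (fun j _ => one_sub_mem _) ?_) ?_
    · rw [card_erase_of_mem (mem_univ i), card_univ, hcard]
      omega
    · obtain ⟨h, hh⟩ := gg_congr (a i)
      rw [hi] at hh
      have h2 : gg (a i) = 3 • h := by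
        rw [hh]
        ext <;> simp
      rw [h2, ← neg_sub]
      exact (JJ 3).neg_mem (mem_JJ h)
  -- replacement by the standard factors
  obtain ⟨P', hP'⟩ : ∃ P' : RR 3, P' = ∏ i, (1 - XX ((a i).val % 3, ((a i).val % 3) ^ 2)) := ⟨_, rfl⟩
  have hdiff : PP 3 a - P' ∈ JJ 3 ^ M := by
    rw [hP', show M = (M - 1) + 1 by omega]
    refine prod_sub_mem _ _ _ (fun i _ => one_sub_mem _) (fun i _ => one_sub_mem _) (fun i _ => ?_) ?_
    · obtain ⟨h, hh⟩ := gg_congr (a i)
      rw [hh, XX_add]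
      have e1 : (1 : RR 3) - XX ((a i).val % 3, ((a i).val % 3) ^ 2) * XX (3 • h) -
          (1 - XX ((a i).val % 3, ((a i).val % 3) ^ 2)) =
          (- XX ((a i).val % 3, ((a i).val % 3) ^ 2)) * (XX (3 • h) - 1) := by ring
      rw [e1]
      exact Ideal.mul_mem_left _ _ (mem_JJ h)
    · rw [card_univ, hcard]
      omega
  obtain ⟨n1, hn1⟩ : ∃ n1, n1 = #(univ.filter fun i => (a i).val % 3 = 1) := ⟨_, rfl⟩
  obtain ⟨n2, hn2⟩ : ∃ n2, n2 = #(univ.filter fun i => ¬ (a i).val % 3 = 1) := ⟨_, rfl⟩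
  have hn : n1 + n2 = 3 * M := by
    rw [hn1, hn2, card_filter_add_card_filter_not, card_univ, hcard, hq, hM]
  have hP2 : P' = (1 - XX (1, 1)) ^ n1 * (1 - XX (2, 4)) ^ n2 := by
    rw [hP', ← Finset.prod_filter_mul_prod_filter_not univ (fun i => (a i).val % 3 = 1), hn1, hn2]
    congr 1
    · refine Finset.prod_eq_pow_card fun i hi => ?_
      rw [mem_filter] at hi
      rw [hi.2]
      rfl
    · refine Finset.prod_eq_pow_card fun i hi => ?_
      rw [mem_filter] at hi
      have h2 : (a i).val % 3 = 2 := by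
        have := h0 i
        have := hi.2
        omega
      rw [h2]
      rfl
  -- the class counts
  have hc1 : ∑ i, (if ((a i).val : ZMod 3) = 1 then (1 : ZMod 3) else 0) = (n1 : ZMod 3) := by
    have e1 : ∀ i, (((a i).val : ZMod 3) = 1) ↔ (a i).val % 3 = 1 := by
      intro i
      have := ZMod.natCast_eq_natCast_iff' (a i).val 1 3
      rw [Nat.cast_one] at this
      exact this
    simp only [e1]
    rw [Finset.sum_boole, hn1]
  have hc2 : ∑ i, (if ((a i).val : ZMod 3) = 2 then (1 : ZMod 3) else 0) = (n2 : ZMod 3) := by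
    have e1 : ∀ i, (((a i).val : ZMod 3) = 2) ↔ ¬ (a i).val % 3 = 1 := by
      intro i
      have := ZMod.natCast_eq_natCast_iff' (a i).val 2 3
      have h5 := h0 i
      constructor
      · intro h6
        have := this.1 (by exact_mod_cast h6)
        omega
      · intro h6
        have := this.2 (by omega)
        exact_mod_cast this
    simp only [e1]
    rw [Finset.sum_boole, hn2]
  -- both counts divisible by 3: contradiction
  have hboth : ¬ (3 ∣ n1 ∧ 3 ∣ n2) := by
    rintro ⟨h1, h2⟩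
    apply hnot
    have h4 : P' ∈ JJ 3 ^ M := by
      rw [hP2]
      have h5 := Ideal.mul_mem_mul (one_sub_pow_mem (1, 1) n1) (one_sub_pow_mem (2, 4) n2)
      rw [← pow_add, show n1 / 3 + n2 / 3 = M by omega] at h5
      exact h5
    have h5 := Ideal.add_mem _ hdiff h4
    rw [sub_add_cancel, hM] at h5
    exact h5
  have hLam : ∀ w : ZMod 3 → ZMod 3, Lam (phi m w) P' = 0 → w 0 - ∑ i, w ((a i).val : ZMod 3) = 0 := by
    intro w h1
    rw [← Lam_PP a ha w]
    have h2 : Lam (phi m w) (PP 3 a - P') = 0 := by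
      refine Lam_JJ (CPD_phi m w) ?_
      rw [Nat.sub_add_cancel (by omega), ← hM]
      exact hdiff
    rw [Lam_sub, h1, sub_zero] at h2
    exact h2
  have hA : 3 ≤ n1 → 3 ∣ n2 := by
    intro h1
    have h2 := hLam (fun s => if s = 2 then 1 else 0) (by
      have e1 : P' = ((1 - XX (1, 1)) ^ (n1 - 3) * (1 - XX (2, 4)) ^ n2) * (1 - XX (1, 1)) ^ 3 := by
        rw [hP2]
        nth_rewrite 1 [show n1 = n1 - 3 + 3 by omega]
        rw [pow_add]
        ring
      rw [e1]
      refine Lam_special hm _ (1, 1) ?_ ?_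
      · intro s hs
        have : s = 2 := by
          by_contra h5
          exact hs (if_neg h5)
        rw [this]
        decide
      · have h5 := Ideal.mul_mem_mul (one_sub_pow_mem (1, 1) (n1 - 3)) (one_sub_pow_mem (2, 4) n2)
        rw [← pow_add] at h5
        exact Ideal.pow_le_pow_right (by omega) h5)
    beta_reduce at h2
    rw [hc2, if_neg (by decide), zero_sub, neg_eq_zero, CharP.cast_eq_zero_iff (ZMod 3) 3] at h2
    exact h2
  have hB : 3 ≤ n2 → 3 ∣ n1 := by
    intro h1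
    have h2 := hLam (fun s => if s = 1 then 1 else 0) (by
      have e1 : P' = ((1 - XX (1, 1)) ^ n1 * (1 - XX (2, 4)) ^ (n2 - 3)) * (1 - XX (2, 4)) ^ 3 := by
        rw [hP2]
        nth_rewrite 1 [show n2 = n2 - 3 + 3 by omega]
        rw [pow_add]
        ring
      rw [e1]
      refine Lam_special hm _ (2, 4) ?_ ?_
      · intro s hs
        have : s = 1 := by
          by_contra h5
          exact hs (if_neg h5)
        rw [this]
        decide
      · have h5 := Ideal.mul_mem_mul (one_sub_pow_mem (1, 1) n1) (one_sub_pow_mem (2, 4) (n2 - 3))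
        rw [← pow_add] at h5
        exact Ideal.pow_le_pow_right (by omega) h5)
    beta_reduce at h2
    rw [hc1, if_neg (by decide), zero_sub, neg_eq_zero, CharP.cast_eq_zero_iff (ZMod 3) 3] at h2
    exact h2
  apply hboth
  rcases Nat.lt_or_ge n1 3 with h | h
  · have := hB (by omega)
    omega
  · have := hA h
    omega

end three

end H28Dav
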