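import Pool.Agent.H28.Dav.Defs
import Pool.Agent.H28.Dav.Seq

/-!
# From multisets to families
-/

open Finset

namespace H28Dav

theorem esymm_cons {n : ℕ} (a : ZMod n) (s : Multiset (ZMod n)) : (a ::ₘ s).esymm 2 = s.esymm 2 + a * s.sum := by
  unfold Multiset.esymm
  rw [Multiset.powersetCard_cons, Multiset.map_add, Multiset.sum_add, Multiset.powersetCard_one, Multiset.map_map,
    Multiset.map_map]
  congr 1
  simp only [Function.comp_def, Multiset.prod_cons, Multiset.prod_singleton]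
  rw [Multiset.sum_map_mul_left, Multiset.map_id']

theorem two_esymm {n : ℕ} (s : Multiset (ZMod n)) : 2 * s.esymm 2 = s.sum ^ 2 - (s.map (· ^ 2)).sum := by
  induction s using Multiset.induction_on with
  | empty =>
    have h1 : (0 : Multiset (ZMod n)).esymm 2 = 0 := by
      unfold Multiset.esymm
      rw [Multiset.powersetCard_eq_empty 2 (by simp), Multiset.map_zero, Multiset.sum_zero]
    rw [h1]
    simp
  | cons a s ih =>
    rw [esymm_cons, Multiset.map_cons, Multiset.sum_cons, Multiset.sum_cons, mul_add, ih]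
    ring

theorem unit_two {p : ℕ} [Fact p.Prime] (hp : p ≠ 2) (k : ℕ) : IsUnit ((2 : ℕ) : ZMod (p ^ k)) := by
  rw [ZMod.isUnit_iff_coprime]
  exact Nat.Coprime.pow_right k ((Nat.coprime_primes Nat.prime_two Fact.out).2 (Ne.symm hp))

theorem free_of {p : ℕ} [Fact p.Prime] (hp : p ≠ 2) (k : ℕ) (S : Multiset (ZMod (p ^ k))) (hS : ¬ HasTwo S) :
    Free2 (fun x : S => (x : ZMod (p ^ k))) := by
  intro T hT h
  apply hS
  refine ⟨T.val.map (fun x : S => (x : ZMod (p ^ k))), ?_, ?_, ?_⟩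
  · have h1 := Multiset.map_le_map (f := fun x : S => (x : ZMod (p ^ k))) (Finset.val_le_iff.2 (subset_univ T))
    rwa [Multiset.map_univ_coe] at h1
  · rw [Multiset.card_map]
    exact hT
  · have h1 := two_esymm (T.val.map (fun x : S => (x : ZMod (p ^ k))))
    rw [Multiset.map_map] at h1
    have h2 : (T.val.map (fun x : S => (x : ZMod (p ^ k)))).sum ^ 2 -
        (T.val.map ((fun x => x ^ 2) ∘ fun x : S => (x : ZMod (p ^ k)))).sum = 0 := by
      rw [sub_eq_zero]
      exact h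
    rw [h2] at h1
    have h3 := unit_two hp k
    push_cast at h3
    exact (h3.mul_right_eq_zero).1 h1

theorem dav_le {n D : ℕ} (hD : 0 < D) (h : ∀ S : Multiset (ZMod n), S.card = D → HasTwo S) : dav n ≤ D :=
  Nat.sInf_le ⟨hD, h⟩

theorem lt_dav {n D0 : ℕ} (hD0 : 0 < D0) (h0 : ∀ S : Multiset (ZMod n), S.card = D0 → HasTwo S)
    (S : Multiset (ZMod n)) (hS : ¬ HasTwo S) : S.card + 1 ≤ dav n := by
  refine le_csInf ⟨D0, hD0, h0⟩ ?_
  rintro D ⟨-, hD⟩
  by_contra hcon
  push Not at hcon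
  obtain ⟨T, hT⟩ : ∃ T, T ∈ Multiset.powersetCard D S := by
    have h1 : 0 < (Multiset.powersetCard D S).card := by
      rw [Multiset.card_powersetCard]
      exact Nat.choose_pos (by omega)
    exact Multiset.card_pos_iff_exists_mem.1 h1
  rw [Multiset.mem_powersetCard] at hT
  obtain ⟨T', h1, h2, h3⟩ := hD T hT.2
  exact hS ⟨T', h1.trans hT.1, h2, h3⟩

theorem upper_bound {p : ℕ} (hp : p.Prime) (hp2 : p ≠ 2) {k : ℕ} (hk : 1 ≤ k) (S : Multiset (ZMod (p ^ k)))
    (hS : S.card = p ^ k + p - 1) : HasTwo S := by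
  have : Fact p.Prime := ⟨hp⟩
  obtain ⟨m, rfl⟩ : ∃ m, k = m + 1 := ⟨k - 1, by omega⟩
  by_contra hcon
  have h1 := free_of hp2 (m + 1) S hcon
  refine upper hp2 m _ ?_ h1
  rw [Multiset.card_coe, hS]

theorem upper_bound_three {k : ℕ} (hk : 2 ≤ k) (S : Multiset (ZMod (3 ^ k))) (hS : S.card = 3 ^ k) : HasTwo S := by
  obtain ⟨m, rfl⟩ : ∃ m, k = m + 1 := ⟨k - 1, by omega⟩
  by_contra hcon
  have h1 := free_of (p := 3) (by norm_num) (m + 1) S hcon
  refine upper_three (by omega) _ ?_ h1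
  rw [Multiset.card_coe, hS]

/-! ## lower bounds -/

/-- a prime power dividing `x (x + c)` where `p` does not divide both factors -/
theorem prime_pow_dvd {p k x c : ℕ} (hp : p.Prime) (hc : ¬ p ∣ c) (h : p ^ k ∣ x * (x + c)) : p ^ k ∣ x ∨ p ^ k ∣ x + c := by
  by_cases h1 : p ∣ x
  · left
    have h2 : ¬ p ∣ x + c := fun h3 => hc ((Nat.dvd_add_right h1).1 h3)
    have h3 : Nat.Coprime (p ^ k) (x + c) := Nat.Coprime.pow_left k ((Nat.Prime.coprime_iff_not_dvd hp).2 h2)
    exact h3.dvd_of_dvd_mul_right h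
  · right
    have h3 : Nat.Coprime (p ^ k) x := Nat.Coprime.pow_left k ((Nat.Prime.coprime_iff_not_dvd hp).2 h1)
    exact h3.dvd_of_dvd_mul_left h

theorem four_cancel {p k : ℕ} (hp : p.Prime) (hp2 : p ≠ 2) {x : ℕ} (h : (4 : ZMod (p ^ k)) * (x : ZMod (p ^ k)) = 0) :
    p ^ k ∣ x := by
  have : Fact p.Prime := ⟨hp⟩
  have h3 := unit_two (p := p) hp2 k
  push_cast at h3
  have h4 : IsUnit (4 : ZMod (p ^ k)) := by
    have := h3.mul h3
    norm_num at this
    exact this
  rw [← CharP.cast_eq_zero_iff (ZMod (p ^ k)) (p ^ k)]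
  exact (h4.mul_right_eq_zero).1 h

/-- the family of long sequences: `m` ones and `t` copies of `a`, where `2 a = c + 1` -/
theorem family {p k m t c : ℕ} (hp : p.Prime) (hp2 : p ≠ 2) (hk : 2 ≤ k) (hc : ¬ p ∣ c) (hc0 : 1 ≤ c)
    (hm : m + c + 1 ≤ p ^ k) (hns : ∀ i, 2 ≤ i → i ≤ t → ¬ IsSquare ((1 + i * (c ^ 2 - 1) : ℕ) : ZMod (p ^ 2)))
    (a : ZMod (p ^ k)) (ha : 2 * a = c + 1) : ¬ HasTwo (Multiset.replicate m 1 + Multiset.replicate t a) := by
  classical
  rintro ⟨T, hT, hcard, hT0⟩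
  -- the shape of `T`
  obtain ⟨j, i, hj, hi, rfl⟩ : ∃ j i, j ≤ m ∧ i ≤ t ∧ T = Multiset.replicate j 1 + Multiset.replicate i a := by
    have h1 : T - Multiset.replicate t a ≤ Multiset.replicate m 1 := by
      rw [tsub_le_iff_right]
      exact hT
    have h2 : T ∩ Multiset.replicate t a ≤ Multiset.replicate t a := Multiset.inter_le_right
    obtain ⟨j, hj, hj2⟩ := Multiset.le_replicate_iff.1 h1
    obtain ⟨i, hi, hi2⟩ := Multiset.le_replicate_iff.1 h2
    refine ⟨j, i, hj, hi, ?_⟩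
    rw [← hj2, ← hi2, Multiset.sub_add_inter]
  rw [Multiset.card_add, Multiset.card_replicate, Multiset.card_replicate] at hcard
  have h1 := two_esymm (Multiset.replicate j (1 : ZMod (p ^ k)) + Multiset.replicate i a)
  rw [hT0] at h1
  simp only [Multiset.map_add, Multiset.map_replicate, Multiset.sum_add, Multiset.sum_replicate, nsmul_eq_mul,
    mul_zero, one_pow, mul_one] at h1
  have hsq : (2 * (j : ZMod (p ^ k)) + i * (c + 1) - 1) ^ 2 = 1 + i * ((c : ZMod (p ^ k)) ^ 2 - 1) := by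
    rw [← ha]
    have h3 : (c : ZMod (p ^ k)) = 2 * a - 1 := by
      rw [ha]
      ring
    rw [h3]
    linear_combination -4 * h1
  rcases Nat.lt_or_ge i 2 with hi2 | hi2
  · rcases Nat.lt_or_ge i 1 with hi1 | hi1
    · -- only ones
      have hi0 : i = 0 := by omega
      subst hi0
      have h4 : (4 : ZMod (p ^ k)) * (((j - 1) * (j - 1 + 1) : ℕ) : ZMod (p ^ k)) = 0 := by
        rw [Nat.sub_add_cancel (by omega : 1 ≤ j)]
        push_cast [Nat.cast_sub (by omega : 1 ≤ j)]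
        push_cast at hsq
        linear_combination hsq
      have h5 := four_cancel hp hp2 h4
      rcases prime_pow_dvd hp (fun h => hp.one_lt.ne' (Nat.dvd_one.1 h)) h5 with h6 | h6
      · have := Nat.le_of_dvd (by omega) h6
        omega
      · have := Nat.le_of_dvd (by omega) h6
        omega
    · have hi0 : i = 1 := by omega
      subst hi0
      have h4 : (4 : ZMod (p ^ k)) * ((j * (j + c) : ℕ) : ZMod (p ^ k)) = 0 := by
        push_cast
        push_cast at hsq
        linear_combination hsq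
      have h5 := four_cancel hp hp2 h4
      rcases prime_pow_dvd hp hc h5 with h6 | h6
      · have := Nat.le_of_dvd (by omega) h6
        omega
      · have := Nat.le_of_dvd (by omega) h6
        omega
  · apply hns i hi2 hi
    have h5 := congrArg (ZMod.castHom (pow_dvd_pow p hk) (ZMod (p ^ 2))) hsq
    rw [map_pow] at h5
    refine ⟨ZMod.castHom (pow_dvd_pow p hk) (ZMod (p ^ 2)) (2 * (j : ZMod (p ^ k)) + i * (c + 1) - 1), ?_⟩
    rw [← sq, h5]
    have hc2 : 1 ≤ c ^ 2 := Nat.one_le_pow _ _ hc0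
    push_cast [Nat.cast_sub hc2]
    rw [map_add, map_one, map_mul, map_natCast, map_sub, map_pow, map_natCast, map_one]

theorem half_exists {p k : ℕ} (hp : p.Prime) (hp2 : p ≠ 2) (c : ℕ) : ∃ a : ZMod (p ^ k), 2 * a = c + 1 := by
  have : Fact p.Prime := ⟨hp⟩
  have h3 := unit_two (p := p) hp2 k
  push_cast at h3
  obtain ⟨u, hu⟩ := h3
  refine ⟨(↑u⁻¹ : ZMod (p ^ k)) * (c + 1), ?_⟩
  rw [← hu, ← mul_assoc, Units.mul_inv, one_mul]

theorem ones_bound {p k : ℕ} (hp : p.Prime) (hp2 : p ≠ 2) (hk : 2 ≤ k) : p ^ k ≤ dav (p ^ k) := by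
  have hpos : 2 ≤ p ^ k := hp.two_le.trans (Nat.le_self_pow (by omega) p)
  obtain ⟨a, ha⟩ := half_exists (k := k) hp hp2 1
  have h1 := family (m := p ^ k - 2) (t := 0) (c := 1) hp hp2 hk (fun h => hp.one_lt.ne' (Nat.dvd_one.1 h)) le_rfl
    (by omega) (by intro i h1 h2; omega) a ha
  have h2 := family (m := p ^ k - 2) (t := 1) (c := 1) hp hp2 hk (fun h => hp.one_lt.ne' (Nat.dvd_one.1 h)) le_rfl
    (by omega) (by intro i h1 h2; omega) a ha
  have h3 := lt_dav (D0 := p ^ k + p - 1) (by omega) (fun S hS => upper_bound hp hp2 (by omega) S hS) _ h2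
  rw [Multiset.card_add, Multiset.card_replicate, Multiset.card_replicate] at h3
  omega

theorem family_bound {p k t c : ℕ} (hp : p.Prime) (hp2 : p ≠ 2) (hk : 2 ≤ k) (hc : ¬ p ∣ c) (hc0 : 1 ≤ c)
    (hns : ∀ i, 2 ≤ i → i ≤ t → ¬ IsSquare ((1 + i * (c ^ 2 - 1) : ℕ) : ZMod (p ^ 2))) :
    p ^ k + t ≤ dav (p ^ k) + c := by
  have hpos : 2 ≤ p ^ k := hp.two_le.trans (Nat.le_self_pow (by omega) p)
  have hp2le : p ^ 2 ≤ p ^ k := Nat.pow_le_pow_right hp.pos hk
  have hpp : 2 ≤ p ^ 2 := hp.two_le.trans (Nat.le_self_pow (by omega) p)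
  rcases Nat.lt_or_ge c t with h | h
  · have ht : t < p ^ 2 := by
      by_contra hcon
      push Not at hcon
      apply hns (p ^ 2) hpp hcon
      refine ⟨1, ?_⟩
      push_cast
      rw [show ((p : ZMod (p ^ 2)) ^ 2) = ((p ^ 2 : ℕ) : ZMod (p ^ 2)) by push_cast; rfl, CharP.cast_eq_zero]
      ring
    obtain ⟨a, ha⟩ := half_exists (k := k) hp hp2 c
    have h2 := family (m := p ^ k - 1 - c) (t := t) (c := c) hp hp2 hk hc hc0 (by omega) hns a ha
    have h3 := lt_dav (D0 := p ^ k + p - 1) (by omega) (fun S hS => upper_bound hp hp2 (by omega) S hS) _ h2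
    rw [Multiset.card_add, Multiset.card_replicate, Multiset.card_replicate] at h3
    omega
  · have := ones_bound hp hp2 hk
    omega

end H28Dav
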