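import Mathlib

/-!
# Polynomial functions on `ℕ × ℕ`

`PD d f`: all `(d+1)`-fold differences of `f : ℕ × ℕ → A` vanish.
-/

open Finset

namespace H28Dav

/-- all `(d+1)`-fold differences of `f` vanish -/
def PD {A : Type*} [AddCommGroup A] : ℕ → (ℕ × ℕ → A) → Prop
  | 0, f => ∀ h x, f (x + h) = f x
  | d + 1, f => ∀ h, PD d (fun x => f (x + h) - f x)

section group

variable {A B : Type*} [AddCommGroup A] [AddCommGroup B]

theorem PD_zero (d : ℕ) : PD d (fun _ => (0 : A)) := by
  induction d with
  | zero => intro h x; rfl
  | succ d ih => intro h; simpa using ih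

theorem PD_const (d : ℕ) (c : A) : PD d (fun _ => c) := by
  cases d with
  | zero => intro h x; rfl
  | succ d => intro h; simpa using PD_zero d

theorem PD.add {d : ℕ} {f g : ℕ × ℕ → A} (hf : PD d f) (hg : PD d g) : PD d (fun x => f x + g x) := by
  induction d generalizing f g with
  | zero => intro h x; beta_reduce; rw [hf h x, hg h x]
  | succ d ih =>
    intro h
    have := ih (hf h) (hg h)
    convert this using 2
    beta_reduce
    abel

theorem PD.neg {d : ℕ} {f : ℕ × ℕ → A} (hf : PD d f) : PD d (fun x => - f x) := by
  induction d generalizing f with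
  | zero => intro h x; beta_reduce; rw [hf h x]
  | succ d ih =>
    intro h
    have := ih (hf h)
    convert this using 2
    beta_reduce
    abel

theorem PD.sub {d : ℕ} {f g : ℕ × ℕ → A} (hf : PD d f) (hg : PD d g) : PD d (fun x => f x - g x) := by
  have := hf.add hg.neg
  convert this using 2
  abel

theorem PD.shift {d : ℕ} {f : ℕ × ℕ → A} (hf : PD d f) (k : ℕ × ℕ) : PD d (fun x => f (x + k)) := by
  induction d generalizing f with
  | zero =>
    intro h x
    show f (x + h + k) = f (x + k)
    rw [add_right_comm, hf h]
  | succ d ih =>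
    intro h
    have := ih (hf h)
    convert this using 3
    rw [add_right_comm]

theorem PD.succ {d : ℕ} {f : ℕ × ℕ → A} (hf : PD d f) : PD (d + 1) f := by
  induction d generalizing f with
  | zero =>
    intro h
    have : (fun x => f (x + h) - f x) = fun _ => (0 : A) := by
      funext x
      rw [hf h x, sub_self]
    rw [this]
    exact PD_zero 0
  | succ d ih =>
    intro h
    exact ih (hf h)

theorem PD.mono {d e : ℕ} {f : ℕ × ℕ → A} (hf : PD d f) (h : d ≤ e) : PD e f := by
  induction h with
  | refl => exact hf
  | step _ ih => exact ih.succ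

theorem PD.sum {ι : Type*} {d : ℕ} (s : Finset ι) {f : ι → ℕ × ℕ → A} (hf : ∀ i ∈ s, PD d (f i)) :
    PD d (fun x => ∑ i ∈ s, f i x) := by
  classical
  induction s using Finset.induction_on with
  | empty => simpa using PD_zero d
  | insert a s ha ih =>
    have h1 := (hf a (mem_insert_self a s)).add (ih fun i hi => hf i (mem_insert_of_mem hi))
    convert h1 using 2
    rw [sum_insert ha]

theorem PD.map {d : ℕ} {f : ℕ × ℕ → A} (φ : A →+ B) (hf : PD d f) : PD d (fun x => φ (f x)) := by
  induction d generalizing f with
  | zero => intro h x; beta_reduce; rw [hf h x]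
  | succ d ih =>
    intro h
    have := ih (hf h)
    simpa only [map_sub] using this

theorem PD.of_map {d : ℕ} {f : ℕ × ℕ → A} (φ : A →+ B) (hφ : Function.Injective φ)
    (hf : PD d (fun x => φ (f x))) : PD d f := by
  induction d generalizing f with
  | zero => intro h x; exact hφ (hf h x)
  | succ d ih =>
    intro h
    refine ih ?_
    simpa only [map_sub] using hf h

end group

section ring

variable {A : Type*} [CommRing A]

theorem PD.const_mul {d : ℕ} {f : ℕ × ℕ → A} (c : A) (hf : PD d f) : PD d (fun x => c * f x) :=
  hf.map (AddMonoidHom.mulLeft c)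

theorem PD.mul {d e : ℕ} {f g : ℕ × ℕ → A} (hf : PD d f) (hg : PD e g) : PD (d + e) (fun x => f x * g x) := by
  induction d generalizing f e g with
  | zero =>
    induction e generalizing g with
    | zero => intro h x; beta_reduce; rw [hf h x, hg h x]
    | succ e ihe =>
      intro h
      have h1 := ihe (hg h)
      have h2 : (fun x => f (x + h) * g (x + h) - f x * g x) = fun x => f x * (g (x + h) - g x) := by
        funext x
        rw [hf h x]
        ring
      show PD (0 + e) (fun x => f (x + h) * g (x + h) - f x * g x)
      rw [h2]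
      exact h1
  | succ d ihd =>
    induction e generalizing g with
    | zero =>
      intro h
      have h1 : PD d (fun x => (f (x + h) - f x) * g x) := ihd (hf h) hg
      have h2 : (fun x => f (x + h) * g (x + h) - f x * g x) = fun x => (f (x + h) - f x) * g x := by
        funext x
        rw [hg h x]
        ring
      show PD d (fun x => f (x + h) * g (x + h) - f x * g x)
      rw [h2]
      exact h1
    | succ e ihe =>
      intro h
      have h1 : PD (d + (e + 1)) (fun x => (f (x + h) - f x) * g (x + h)) := ihd (hf h) (hg.shift h)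
      have h2 : PD (d + 1 + e) (fun x => f x * (g (x + h) - g x)) := ihe (hg h)
      have h3 : PD (d + 1 + e) (fun x => (f (x + h) - f x) * g (x + h)) := h1.mono (by omega)
      have h4 := h3.add h2
      have h5 : (fun x => f (x + h) * g (x + h) - f x * g x) =
          fun x => (f (x + h) - f x) * g (x + h) + f x * (g (x + h) - g x) := by
        funext x
        ring
      show PD (d + 1 + e) (fun x => f (x + h) * g (x + h) - f x * g x)
      rw [h5]
      exact h4

theorem PD.prod {ι : Type*} {d : ℕ} (s : Finset ι) {f : ι → ℕ × ℕ → A} (hf : ∀ i ∈ s, PD d (f i)) :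
    PD (s.card * d) (fun x => ∏ i ∈ s, f i x) := by
  classical
  induction s using Finset.induction_on with
  | empty => simpa using PD_const 0 (1 : A)
  | insert a s ha ih =>
    have h1 := (hf a (mem_insert_self a s)).mul (ih fun i hi => hf i (mem_insert_of_mem hi))
    rw [card_insert_of_notMem ha]
    convert h1 using 2
    · ring
    · rw [prod_insert ha]

end ring

/-- the binomial coefficients of a function of degree `d` -/
theorem PD_choose {d : ℕ} {N : ℕ × ℕ → ℕ} (hN : PD d (fun x => (N x : ℚ))) (j : ℕ) (p : ℕ) :
    PD (j * d) (fun x => ((Nat.choose (N x) j : ℕ) : ZMod p)) := by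
  have h1 : PD (j * d) (fun x => ((Nat.choose (N x) j : ℕ) : ℚ)) := by
    have h2 : PD ((range j).card * d) (fun x => ∏ t ∈ range j, ((N x : ℚ) - t)) :=
      PD.prod (range j) fun t _ => hN.sub (PD_const d _)
    rw [card_range] at h2
    have h3 := h2.const_mul (1 / (j.factorial : ℚ))
    have h4 : (fun x => ((Nat.choose (N x) j : ℕ) : ℚ)) =
        fun x => 1 / (j.factorial : ℚ) * ∏ t ∈ range j, ((N x : ℚ) - t) := by
      funext x
      rw [Nat.cast_choose_eq_descPochhammer_div, descPochhammer_eval_eq_prod_range]
      ring
    rw [h4]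
    exact h3
  have h4 : PD (j * d) (fun x => ((Nat.choose (N x) j : ℕ) : ℤ)) := by
    refine PD.of_map (Int.castAddHom ℚ) Int.cast_injective ?_
    convert h1 using 2
    simp
  have h5 := h4.map (Int.castAddHom (ZMod p))
  convert h5 using 2
  simp

end H28Dav
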