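import Pool.Agent.H28.Dav.Ring

/-!
# The indicator function of the parabola

`phi m w (s, Q) = w(s)` if `s² = Q` modulo `p^(m+1)`, and `0` otherwise. It has degree `p^m - 1` along the cosets of
`p (ℕ × ℕ)`.
-/

open Finset

namespace H28Dav

variable {p : ℕ}

open Classical in
/-- the parabola modulo `p^(m+1)` with a weight depending on `s` modulo `p` -/
noncomputable def phi (m : ℕ) (w : ZMod p → ZMod p) (x : ℕ × ℕ) : ZMod p :=
  if (x.1 : ZMod (p ^ (m + 1))) ^ 2 = (x.2 : ZMod (p ^ (m + 1))) then w (x.1 : ZMod p) else 0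

theorem choose_lucas [Fact p.Prime] (n k : ℕ) :
    ((n.choose k : ℕ) : ZMod p) = (((n % p).choose (k % p) : ℕ) : ZMod p) * (((n / p).choose (k / p) : ℕ) : ZMod p) := by
  have := (ZMod.natCast_eq_natCast_iff _ _ p).2 (Choose.choose_modEq_choose_mod_mul_choose_div_nat (n := n) (k := k) (p := p))
  rw [this]
  push_cast
  ring

theorem choose_ind [Fact p.Prime] (m N : ℕ) :
    ((N.choose (p ^ m - 1) : ℕ) : ZMod p) = if N % p ^ m = p ^ m - 1 then 1 else 0 := by
  have hp := (Fact.out : p.Prime).pos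
  have hp2 := (Fact.out : p.Prime).two_le
  induction m generalizing N with
  | zero => simp [Nat.mod_one]
  | succ m ih =>
    have hpm : 0 < p ^ m := Nat.pow_pos hp
    have e1 : p ^ (m + 1) - 1 = (p - 1) + p * (p ^ m - 1) := by
      rw [pow_succ', Nat.mul_sub, mul_one]
      have : p ≤ p * p ^ m := Nat.le_mul_of_pos_right p hpm
      omega
    have e2 : (p ^ (m + 1) - 1) % p = p - 1 := by
      rw [e1, Nat.add_mul_mod_self_left, Nat.mod_eq_of_lt (by omega)]
    have e3 : (p ^ (m + 1) - 1) / p = p ^ m - 1 := by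
      rw [e1, Nat.add_mul_div_left _ _ hp, Nat.div_eq_of_lt (by omega), zero_add]
    have hN := Nat.mod_lt N hp
    rw [choose_lucas, e2, e3, ih, pow_succ', Nat.mod_mul, ← pow_succ', e1]
    have hM := Nat.mod_lt (N / p) hpm
    by_cases h1 : N % p = p - 1
    · rw [h1, Nat.choose_self, Nat.cast_one, one_mul]
      have h3 : p - 1 + p * (N / p % p ^ m) = p - 1 + p * (p ^ m - 1) ↔ N / p % p ^ m = p ^ m - 1 := by
        constructor
        · intro h
          have := Nat.add_left_cancel h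
          exact Nat.eq_of_mul_eq_mul_left hp this
        · intro h
          rw [h]
      simp only [h3]
    · rw [Nat.choose_eq_zero_of_lt (by omega), Nat.cast_zero, zero_mul, if_neg]
      intro h
      apply h1
      have h4 := congrArg (· % p) h
      simp only [Nat.add_mul_mod_self_left] at h4
      rw [Nat.mod_mod, Nat.mod_eq_of_lt (by omega : p - 1 < p)] at h4
      exact h4

/-- the linear part -/
def AA (κ e : ℕ) (x : ℕ × ℕ) : ℕ := κ + x.2 + e * x.1

theorem phi_eq [Fact p.Prime] (m : ℕ) (w : ZMod p → ZMod p) (s Q : ℕ) (h : (s : ZMod p) ^ 2 = (Q : ZMod p)) :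
    ∃ κ : ℕ, ∀ x : ℕ × ℕ, phi m w ((s, Q) + p • x) =
      w s * ((((AA κ (2 * s * (p ^ (m + 1) - 1)) x + p * ((p ^ (m + 1) - 1) * x.1 ^ 2)).choose (p ^ m - 1) : ℕ) : ℕ) : ZMod p) := by
  have hp := (Fact.out : p.Prime).pos
  have hpm : 0 < p ^ m := Nat.pow_pos hp
  have hpm1 : 0 < p ^ (m + 1) := Nat.pow_pos hp
  obtain ⟨E, hE⟩ : ∃ E, E = p ^ (m + 1) - 1 := ⟨_, rfl⟩
  have hE1 : E + 1 = p ^ (m + 1) := by omega
  have hdvd : p ∣ Q + E * s ^ 2 := by
    rw [← CharP.cast_eq_zero_iff (ZMod p) p]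
    push_cast
    rw [← h]
    have : ((E : ZMod p)) = -1 := by
      have h1 : ((E + 1 : ℕ) : ZMod p) = 0 := by
        rw [hE1]
        push_cast
        rw [pow_succ, CharP.cast_eq_zero, mul_zero]
      push_cast at h1
      exact eq_neg_of_add_eq_zero_left h1
    rw [this]
    ring
  obtain ⟨κ0, hκ0⟩ := hdvd
  refine ⟨κ0 + (p ^ m - 1), fun x => ?_⟩
  obtain ⟨u, v⟩ := x
  rw [← hE]
  obtain ⟨N', hN'⟩ : ∃ N', N' = κ0 + v + 2 * s * E * u + p * (E * u ^ 2) := ⟨_, rfl⟩
  have e1 : AA (κ0 + (p ^ m - 1)) (2 * s * E) (u, v) + p * (E * (u, v).1 ^ 2) = N' + (p ^ m - 1) := by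
    rw [hN', AA]
    ring
  rw [e1, choose_ind]
  have e2 : p * N' = Q + p * v + E * (s + p * u) ^ 2 := by
    rw [hN']
    have : p * (κ0 + v + 2 * s * E * u + p * (E * u ^ 2)) = p * κ0 + (p * v + p * (2 * s * E * u) + p * (p * (E * u ^ 2))) := by
      ring
    rw [this, ← hκ0]
    ring
  have e3 : (N' + (p ^ m - 1)) % p ^ m = p ^ m - 1 ↔ p ^ m ∣ N' := by
    constructor
    · intro h3
      have h4 : (N' + (p ^ m - 1)) % p ^ m = (0 + (p ^ m - 1)) % p ^ m := by
        rw [h3, zero_add, Nat.mod_eq_of_lt (by omega)]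
      have h5 : N' ≡ 0 [MOD p ^ m] := Nat.ModEq.add_right_cancel' (p ^ m - 1) h4
      exact (Nat.modEq_zero_iff_dvd).1 h5
    · rintro ⟨t, ht⟩
      rw [ht, Nat.mul_add_mod, Nat.mod_eq_of_lt (by omega)]
  have e4 : p ^ m ∣ N' ↔ ((s + p * u : ℕ) : ZMod (p ^ (m + 1))) ^ 2 = ((Q + p * v : ℕ) : ZMod (p ^ (m + 1))) := by
    have h6 : p ^ m ∣ N' ↔ p ^ (m + 1) ∣ p * N' := by
      rw [pow_succ']
      exact (Nat.mul_dvd_mul_iff_left hp).symm
    rw [h6, e2, ← CharP.cast_eq_zero_iff (ZMod (p ^ (m + 1))) (p ^ (m + 1))]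
    have hE2 : ((E : ZMod (p ^ (m + 1)))) = -1 := by
      have h1 : ((E + 1 : ℕ) : ZMod (p ^ (m + 1))) = 0 := by
        rw [hE1, CharP.cast_eq_zero]
      push_cast at h1
      exact eq_neg_of_add_eq_zero_left h1
    push_cast
    rw [hE2]
    constructor
    · intro h7
      linear_combination -h7
    · intro h7
      linear_combination -h7
  simp only [e3, e4]
  unfold phi
  have e5 : ((s, Q) : ℕ × ℕ) + p • (u, v) = (s + p * u, Q + p * v) := by
    simp
  rw [e5]
  have e6 : ((s + p * u : ℕ) : ZMod p) = (s : ZMod p) := by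
    push_cast
    rw [CharP.cast_eq_zero (ZMod p) p]
    ring
  simp only [e6]
  split_ifs
  · rw [mul_one]
  · rw [mul_zero]

theorem phi_zero [Fact p.Prime] (m : ℕ) (w : ZMod p → ZMod p) (s Q : ℕ) (h : (s : ZMod p) ^ 2 ≠ (Q : ZMod p))
    (x : ℕ × ℕ) : phi m w ((s, Q) + p • x) = 0 := by
  obtain ⟨u, v⟩ := x
  unfold phi
  rw [if_neg]
  intro h1
  apply h
  have e5 : ((s, Q) : ℕ × ℕ) + p • (u, v) = (s + p * u, Q + p * v) := by
    simp
  rw [e5] at h1
  have h2 := congrArg (ZMod.castHom (dvd_pow_self p (Nat.succ_ne_zero m)) (ZMod p)) h1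
  rw [map_pow, map_natCast, map_natCast] at h2
  push_cast at h2
  rw [CharP.cast_eq_zero (ZMod p) p] at h2
  simpa using h2

theorem choose_mul [Fact p.Prime] (B j : ℕ) :
    (((p * B).choose j : ℕ) : ZMod p) = if p ∣ j then ((B.choose (j / p) : ℕ) : ZMod p) else 0 := by
  have hp := (Fact.out : p.Prime).pos
  rw [choose_lucas, Nat.mul_mod_right, Nat.mul_div_cancel_left _ hp]
  split_ifs with h
  · rw [Nat.mod_eq_zero_of_dvd h]
    simp
  · rw [Nat.choose_eq_zero_of_lt (Nat.pos_of_ne_zero fun h0 => h (Nat.dvd_of_mod_eq_zero h0))]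
    simp

theorem PD_fst : PD 1 (fun x : ℕ × ℕ => (x.1 : ℚ)) := by
  intro h
  have : (fun x : ℕ × ℕ => (((x + h).1 : ℕ) : ℚ) - (x.1 : ℚ)) = fun _ => (h.1 : ℚ) := by
    funext x
    simp
  show PD 0 (fun x : ℕ × ℕ => (((x + h).1 : ℕ) : ℚ) - (x.1 : ℚ))
  rw [this]
  exact PD_const 0 _

theorem PD_snd : PD 1 (fun x : ℕ × ℕ => (x.2 : ℚ)) := by
  intro h
  have : (fun x : ℕ × ℕ => (((x + h).2 : ℕ) : ℚ) - (x.2 : ℚ)) = fun _ => (h.2 : ℚ) := by
    funext x
    simp
  show PD 0 (fun x : ℕ × ℕ => (((x + h).2 : ℕ) : ℚ) - (x.2 : ℚ))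
  rw [this]
  exact PD_const 0 _

theorem PD_AA (κ e : ℕ) : PD 1 (fun x : ℕ × ℕ => ((AA κ e x : ℕ) : ℚ)) := by
  have h1 := (((PD_const 1 (κ : ℚ)).add PD_snd).add (PD_fst.const_mul (e : ℚ)))
  have e1 : (fun x : ℕ × ℕ => ((AA κ e x : ℕ) : ℚ)) = fun x : ℕ × ℕ => (κ : ℚ) + (x.2 : ℚ) + (e : ℚ) * (x.1 : ℚ) := by
    funext x
    unfold AA
    push_cast
    ring
  rw [e1]
  exact h1

theorem PD_chA (κ e i : ℕ) : PD i (fun x : ℕ × ℕ => (((AA κ e x).choose i : ℕ) : ZMod p)) := by
  have := PD_choose (PD_AA κ e) i p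
  rwa [mul_one] at this

theorem PD_chB [Fact p.Prime] (E j : ℕ) :
    PD ((j / p) * 2) (fun x : ℕ × ℕ => (((p * (E * x.1 ^ 2)).choose j : ℕ) : ZMod p)) := by
  have e1 : (fun x : ℕ × ℕ => (((p * (E * x.1 ^ 2)).choose j : ℕ) : ZMod p)) =
      fun x : ℕ × ℕ => if p ∣ j then (((E * x.1 ^ 2).choose (j / p) : ℕ) : ZMod p) else 0 := by
    funext x
    rw [choose_mul]
  rw [e1]
  split_ifs with h
  · refine PD_choose ?_ (j / p) p
    have h1 := (PD_fst.mul PD_fst).const_mul (E : ℚ)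
    have e2 : (fun x : ℕ × ℕ => ((E * x.1 ^ 2 : ℕ) : ℚ)) = fun x : ℕ × ℕ => (E : ℚ) * ((x.1 : ℚ) * (x.1 : ℚ)) := by
      funext x
      push_cast
      ring
    rw [e2]
    exact h1
  · exact PD_zero _

theorem chB_zero [Fact p.Prime] (E j : ℕ) (h : ¬ p ∣ j) :
    (fun x : ℕ × ℕ => (((p * (E * x.1 ^ 2)).choose j : ℕ) : ZMod p)) = fun _ => 0 := by
  funext x
  rw [choose_mul, if_neg h]

/-- the parabola has degree `p^m - 1` along the cosets -/
theorem CPD_phi [Fact p.Prime] (m : ℕ) (w : ZMod p → ZMod p) : CPD (p ^ m - 1) (phi (p := p) m w) := by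
  have hp2 := (Fact.out : p.Prime).two_le
  intro z
  obtain ⟨s, Q⟩ := z
  by_cases h : (s : ZMod p) ^ 2 = (Q : ZMod p)
  · obtain ⟨κ, hκ⟩ := phi_eq m w s Q h
    have e1 : (fun x => phi m w ((s, Q) + p • x)) = fun x => w s * ∑ ij ∈ antidiagonal (p ^ m - 1),
        (((AA κ (2 * s * (p ^ (m + 1) - 1)) x).choose ij.1 : ℕ) : ZMod p) *
          (((p * ((p ^ (m + 1) - 1) * x.1 ^ 2)).choose ij.2 : ℕ) : ZMod p) := by
      funext x
      rw [hκ x, Nat.add_choose_eq]
      push_cast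
      rfl
    rw [e1]
    refine PD.const_mul _ (PD.sum _ fun ij hij => ?_)
    rw [HasAntidiagonal.mem_antidiagonal] at hij
    refine ((PD_chA κ _ ij.1).mul (PD_chB _ ij.2)).mono ?_
    have : ij.2 / p * 2 ≤ ij.2 := (Nat.mul_le_mul_left _ hp2).trans (Nat.div_mul_le_self _ _)
    omega
  · have e1 : (fun x => phi m w ((s, Q) + p • x)) = fun _ => 0 := by
      funext x
      exact phi_zero m w s Q h x
    rw [e1]
    exact PD_zero _

/-- the difference in a special direction has smaller degree -/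
theorem CPD_phi_diff [Fact p.Prime] (hp3 : 3 ≤ p) {m : ℕ} (hm : 1 ≤ m) (w : ZMod p → ZMod p) (α β : ℕ)
    (hw : ∀ s : ZMod p, w s ≠ 0 → (β : ZMod p) = 2 * s * α) :
    CPD (p ^ m - 3) (fun x => phi (p := p) m w (x + p • (α, β)) - phi m w x) := by
  have hpm : 3 ≤ p ^ m := hp3.trans (Nat.le_self_pow (by omega) p)
  intro z
  obtain ⟨s, Q⟩ := z
  by_cases h : (s : ZMod p) ^ 2 = (Q : ZMod p) ∧ w s ≠ 0
  · obtain ⟨h, hws⟩ := h
    obtain ⟨κ, hκ⟩ := phi_eq m w s Q h
    obtain ⟨E, hE⟩ : ∃ E, E = p ^ (m + 1) - 1 := ⟨_, rfl⟩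
    rw [← hE] at hκ
    obtain ⟨k, hk⟩ : ∃ k, k = p ^ m - 1 := ⟨_, rfl⟩
    rw [← hk] at hκ
    -- the part with `B`
    obtain ⟨G, hG⟩ : ∃ G : ℕ × ℕ → ZMod p, G = fun x => ∑ ij ∈ (antidiagonal k).filter (fun ij => ij.2 ≠ 0),
        (((AA κ (2 * s * E) x).choose ij.1 : ℕ) : ZMod p) * (((p * (E * x.1 ^ 2)).choose ij.2 : ℕ) : ZMod p) := ⟨_, rfl⟩
    have hGd : PD (p ^ m - 3 + 1) G := by
      rw [hG]
      refine PD.sum _ fun ij hij => ?_
      rw [mem_filter, HasAntidiagonal.mem_antidiagonal] at hij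
      by_cases hd : p ∣ ij.2
      · refine ((PD_chA κ _ ij.1).mul (PD_chB _ ij.2)).mono ?_
        obtain ⟨t, ht⟩ := hd
        have hp0 : 0 < p := by omega
        have ht0 : t ≠ 0 := by
          rintro rfl
          exact hij.2 (by rw [ht, mul_zero])
        have h2 : ij.2 / p = t := by rw [ht, Nat.mul_div_cancel_left _ hp0]
        have h3 : 3 * t ≤ p * t := Nat.mul_le_mul_right t hp3
        rw [h2]
        omega
      · have e1 := chB_zero (p := p) E ij.2 hd
        have e2 : (fun x : ℕ × ℕ => (((AA κ (2 * s * E) x).choose ij.1 : ℕ) : ZMod p) *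
            (((p * (E * x.1 ^ 2)).choose ij.2 : ℕ) : ZMod p)) = fun _ => 0 := by
          funext x
          rw [congrFun e1 x, mul_zero]
        rw [e2]
        exact PD_zero _
    have hsplit : ∀ x : ℕ × ℕ, (((AA κ (2 * s * E) x + p * (E * x.1 ^ 2)).choose k : ℕ) : ZMod p) =
        (((AA κ (2 * s * E) x).choose k : ℕ) : ZMod p) + G x := by
      intro x
      rw [Nat.add_choose_eq, hG]
      push_cast
      rw [← Finset.sum_filter_add_sum_filter_not (antidiagonal k) (fun ij => ij.2 = 0)]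
      congr 1
      have e1 : (antidiagonal k).filter (fun ij => ij.2 = 0) = {(k, 0)} := by
        ext ⟨i, j⟩
        simp only [mem_filter, HasAntidiagonal.mem_antidiagonal, mem_singleton, Prod.mk.injEq]
        constructor
        · rintro ⟨h1, h2⟩
          exact ⟨by omega, h2⟩
        · rintro ⟨h1, h2⟩
          exact ⟨by omega, h2⟩
      rw [e1, sum_singleton]
      simp
    -- the shift of `A`
    obtain ⟨δ, hδ⟩ : ∃ δ, δ = β + 2 * s * E * α := ⟨_, rfl⟩
    have hδp : p ∣ δ := by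
      rw [← CharP.cast_eq_zero_iff (ZMod p) p, hδ]
      push_cast
      have : ((E : ZMod p)) = -1 := by
        have h1 : ((E + 1 : ℕ) : ZMod p) = 0 := by
          have : E + 1 = p ^ (m + 1) := by
            have : 0 < p ^ (m + 1) := Nat.pow_pos (by omega)
            omega
          rw [this]
          push_cast
          rw [pow_succ, CharP.cast_eq_zero, mul_zero]
        push_cast at h1
        exact eq_neg_of_add_eq_zero_left h1
      rw [this, hw s hws]
      ring
    have hshift : ∀ x : ℕ × ℕ, AA κ (2 * s * E) (x + (α, β)) = AA κ (2 * s * E) x + δ := by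
      intro x
      rw [hδ]
      unfold AA
      simp only [Prod.fst_add, Prod.snd_add]
      ring
    have hA : PD (p ^ m - 3) (fun x => (((AA κ (2 * s * E) (x + (α, β))).choose k : ℕ) : ZMod p) -
        (((AA κ (2 * s * E) x).choose k : ℕ) : ZMod p)) := by
      have e1 : (fun x => (((AA κ (2 * s * E) (x + (α, β))).choose k : ℕ) : ZMod p) -
          (((AA κ (2 * s * E) x).choose k : ℕ) : ZMod p)) =
          fun x => ∑ ij ∈ (antidiagonal k).filter (fun ij => ij.2 ≠ 0),
            (((AA κ (2 * s * E) x).choose ij.1 : ℕ) : ZMod p) * ((δ.choose ij.2 : ℕ) : ZMod p) := by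
        funext x
        rw [hshift, Nat.add_choose_eq]
        push_cast
        rw [← Finset.sum_filter_add_sum_filter_not (antidiagonal k) (fun ij => ij.2 = 0)]
        have e1 : (antidiagonal k).filter (fun ij => ij.2 = 0) = {(k, 0)} := by
          ext ⟨i, j⟩
          simp only [mem_filter, HasAntidiagonal.mem_antidiagonal, mem_singleton, Prod.mk.injEq]
          constructor
          · rintro ⟨h1, h2⟩
            exact ⟨by omega, h2⟩
          · rintro ⟨h1, h2⟩
            exact ⟨by omega, h2⟩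
        rw [e1, sum_singleton]
        simp
      rw [e1]
      refine PD.sum _ fun ij hij => ?_
      rw [mem_filter, HasAntidiagonal.mem_antidiagonal] at hij
      obtain ⟨t, ht⟩ := hδp
      by_cases hd : p ∣ ij.2
      · have h3 : p ≤ ij.2 := Nat.le_of_dvd (Nat.pos_of_ne_zero hij.2) hd
        have h4 := (PD_chA (p := p) κ (2 * s * E) ij.1).mul (PD_const 0 ((δ.choose ij.2 : ℕ) : ZMod p))
        exact h4.mono (by omega)
      · have e2 : (fun x : ℕ × ℕ => (((AA κ (2 * s * E) x).choose ij.1 : ℕ) : ZMod p) *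
            ((δ.choose ij.2 : ℕ) : ZMod p)) = fun _ => 0 := by
          funext x
          rw [ht, choose_mul, if_neg hd, mul_zero]
        rw [e2]
        exact PD_zero _
    have hfin := ((hA.add (hGd (α, β))).const_mul (w s))
    have e1 : (fun x => (fun x => phi m w (x + p • (α, β)) - phi m w x) ((s, Q) + p • x)) = fun x => w s *
        ((((AA κ (2 * s * E) (x + (α, β))).choose k : ℕ) : ZMod p) - (((AA κ (2 * s * E) x).choose k : ℕ) : ZMod p) +
          (G (x + (α, β)) - G x)) := by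
      funext x
      beta_reduce
      rw [add_assoc, ← smul_add, hκ, hκ, hsplit, hsplit]
      ring
    rw [e1]
    exact hfin
  · have e1 : (fun x => (fun x => phi m w (x + p • (α, β)) - phi m w x) ((s, Q) + p • x)) = fun _ => 0 := by
      funext x
      beta_reduce
      rw [add_assoc, ← smul_add]
      by_cases h1 : (s : ZMod p) ^ 2 = (Q : ZMod p)
      · obtain ⟨κ, hκ⟩ := phi_eq m w s Q h1
        have h2 : w s = 0 := by
          by_contra h3
          exact h ⟨h1, h3⟩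
        rw [hκ, hκ, h2]
        ring
      · rw [phi_zero m w s Q h1, phi_zero m w s Q h1, sub_zero]
    rw [e1]
    exact PD_zero _

end H28Dav
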