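import Pool.Agent.H28.Dav.PD

/-!
# The monoid ring of `ℕ × ℕ`

`R = F_p[ℕ × ℕ]`, `Lam φ` is the linear functional with `X^g ↦ φ g`. The ideal `JJ` is generated by the elements
`X^{p h} - 1`, the ideal `II` by the elements `X^g - 1`.
-/

open Finset

namespace H28Dav

variable {p : ℕ}

/-- the monoid ring -/
abbrev RR (p : ℕ) : Type := AddMonoidAlgebra (ZMod p) (ℕ × ℕ)

/-- the monomial `X^g` -/
noncomputable def XX (g : ℕ × ℕ) : RR p := AddMonoidAlgebra.single g 1

/-- the functional `X^g ↦ φ g` -/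
noncomputable def Lam (φ : ℕ × ℕ → ZMod p) (r : RR p) : ZMod p := r.coeff.sum fun g c => c * φ g

theorem Lam_zero (φ : ℕ × ℕ → ZMod p) : Lam φ 0 = 0 := by
  simp [Lam]

theorem Lam_add (φ : ℕ × ℕ → ZMod p) (r s : RR p) : Lam φ (r + s) = Lam φ r + Lam φ s := by
  unfold Lam
  rw [AddMonoidAlgebra.coeff_add]
  exact Finsupp.sum_add_index' (fun _ => by simp) (fun _ _ _ => by ring)

theorem Lam_single (φ : ℕ × ℕ → ZMod p) (g : ℕ × ℕ) (c : ZMod p) :
    Lam φ (AddMonoidAlgebra.single g c) = c * φ g := by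
  unfold Lam
  rw [AddMonoidAlgebra.coeff_single]
  exact Finsupp.sum_single_index (by simp)

theorem Lam_XX (φ : ℕ × ℕ → ZMod p) (g : ℕ × ℕ) : Lam φ (XX g) = φ g := by
  unfold XX
  rw [Lam_single, one_mul]

/-- `Lam φ` as an additive map -/
noncomputable def LamHom (φ : ℕ × ℕ → ZMod p) : RR p →+ ZMod p where
  toFun := Lam φ
  map_zero' := Lam_zero φ
  map_add' := Lam_add φ

theorem Lam_sum {ι : Type*} (φ : ℕ × ℕ → ZMod p) (s : Finset ι) (f : ι → RR p) :
    Lam φ (∑ i ∈ s, f i) = ∑ i ∈ s, Lam φ (f i) := map_sum (LamHom φ) f s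

theorem Lam_neg (φ : ℕ × ℕ → ZMod p) (r : RR p) : Lam φ (-r) = - Lam φ r := map_neg (LamHom φ) r

theorem Lam_sub (φ : ℕ × ℕ → ZMod p) (r s : RR p) : Lam φ (r - s) = Lam φ r - Lam φ s := map_sub (LamHom φ) r s

theorem Lam_fun_zero (r : RR p) : Lam (fun _ => 0) r = 0 := by
  simp [Lam]

theorem XX_add (g h : ℕ × ℕ) : XX (p := p) (g + h) = XX g * XX h := by
  unfold XX
  rw [AddMonoidAlgebra.single_mul_single, one_mul]

theorem XX_zero : XX (p := p) 0 = 1 := rfl

theorem XX_nsmul (n : ℕ) (g : ℕ × ℕ) : XX (p := p) (n • g) = XX g ^ n := by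
  induction n with
  | zero => rw [zero_smul, XX_zero, pow_zero]
  | succ n ih => rw [succ_nsmul, XX_add, ih, pow_succ]

theorem XX_sum {ι : Type*} (s : Finset ι) (g : ι → ℕ × ℕ) : XX (p := p) (∑ i ∈ s, g i) = ∏ i ∈ s, XX (g i) := by
  classical
  induction s using Finset.induction_on with
  | empty => simp [XX_zero]
  | insert a s ha ih => rw [sum_insert ha, prod_insert ha, XX_add, ih]

/-- multiplication by `X^g - 1` is a difference -/
theorem Lam_mul_XX_sub (φ : ℕ × ℕ → ZMod p) (g : ℕ × ℕ) (r : RR p) :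
    Lam φ (r * (XX g - 1)) = Lam (fun x => φ (x + g) - φ x) r := by
  induction r using AddMonoidAlgebra.induction_linear with
  | zero => rw [zero_mul, Lam_zero, Lam_zero]
  | add r s hr hs => rw [add_mul, Lam_add, Lam_add, hr, hs]
  | single x c =>
    rw [mul_sub, mul_one, Lam_sub, XX, AddMonoidAlgebra.single_mul_single, Lam_single, Lam_single, Lam_single]
    ring

/-- degree along the cosets of `p (ℕ × ℕ)` -/
def CPD (d : ℕ) (φ : ℕ × ℕ → ZMod p) : Prop := ∀ z : ℕ × ℕ, PD d (fun x => φ (z + p • x))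

theorem CPD_diff {d : ℕ} {φ : ℕ × ℕ → ZMod p} (h : CPD (d + 1) φ) (k : ℕ × ℕ) :
    CPD d (fun x => φ (x + p • k) - φ x) := by
  intro z
  have h1 := h z k
  have h2 : (fun x => φ (z + p • x + p • k) - φ (z + p • x)) = fun x => φ (z + p • (x + k)) - φ (z + p • x) := by
    funext x
    rw [smul_add, add_assoc]
  show PD d (fun x => φ (z + p • x + p • k) - φ (z + p • x))
  rw [h2]
  exact h1

/-- the ideal generated by the `X^{ph} - 1` -/
noncomputable def JJ (p : ℕ) : Ideal (RR p) := Ideal.span (Set.range fun h : ℕ × ℕ => XX (p • h) - 1)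

theorem mem_JJ (h : ℕ × ℕ) : XX (p • h) - 1 ∈ JJ p := Ideal.subset_span ⟨h, rfl⟩

theorem Lam_mul_JJ {φ : ℕ × ℕ → ZMod p} {I : Ideal (RR p)}
    (h : ∀ k : ℕ × ℕ, ∀ a ∈ I, Lam (fun x => φ (x + p • k) - φ x) a = 0) {r : RR p} (hr : r ∈ I * JJ p) :
    Lam φ r = 0 := by
  have h1 : ∀ b ∈ JJ p, ∀ a ∈ I, Lam φ (a * b) = 0 := by
    intro b hb
    refine Submodule.span_induction (p := fun b _ => ∀ a ∈ I, Lam φ (a * b) = 0) ?_ ?_ ?_ ?_ hb
    · rintro _ ⟨k, rfl⟩ a ha
      rw [Lam_mul_XX_sub]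
      exact h k a ha
    · intro a _
      rw [mul_zero, Lam_zero]
    · intro x y _ _ hx hy a ha
      rw [mul_add, Lam_add, hx a ha, hy a ha, add_zero]
    · intro c x _ hx a ha
      rw [smul_eq_mul, ← mul_assoc]
      exact hx _ (I.mul_mem_right c ha)
  refine Submodule.mul_induction_on hr (fun a ha b hb => h1 b hb a ha) ?_
  intro x y hx hy
  rw [Lam_add, hx, hy, add_zero]

/-- a function of degree `d` along the cosets kills the power `d + 1` of `JJ` -/
theorem Lam_JJ {d : ℕ} {φ : ℕ × ℕ → ZMod p} (h : CPD d φ) {r : RR p} (hr : r ∈ JJ p ^ (d + 1)) : Lam φ r = 0 := by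
  induction d generalizing φ r with
  | zero =>
    rw [pow_succ] at hr
    refine Lam_mul_JJ (fun k a _ => ?_) hr
    have h1 : (fun x => φ (x + p • k) - φ x) = fun _ => 0 := by
      funext x
      have h2 : φ (x + p • (0 + k)) = φ (x + p • (0 : ℕ × ℕ)) := h x k 0
      rw [zero_add, smul_zero, add_zero] at h2
      rw [h2, sub_self]
    rw [h1, Lam_fun_zero]
  | succ d ih =>
    rw [pow_succ] at hr
    exact Lam_mul_JJ (fun k a ha => ih (CPD_diff h k) ha) hr

/-! ## products -/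

/-- the ideal generated by `X^(1,0) - 1` and `X^(0,1) - 1` -/
noncomputable def II (p : ℕ) : Ideal (RR p) := Ideal.span {XX (1, 0) - 1, XX (0, 1) - 1}

theorem XX_sub_mem (g : ℕ × ℕ) : XX g - 1 ∈ II p := by
  obtain ⟨a, b⟩ := g
  have hx : XX (1, 0) - 1 ∈ II p := Ideal.subset_span (by simp)
  have hy : XX (0, 1) - 1 ∈ II p := Ideal.subset_span (by simp)
  have h1 : ∀ (g : ℕ × ℕ), XX g - 1 ∈ II p → ∀ n : ℕ, XX g ^ n - 1 ∈ II p := by
    intro g hg n
    have := sub_dvd_pow_sub_pow (XX (p := p) g) 1 n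
    rw [one_pow] at this
    exact Ideal.mem_of_dvd _ this hg
  have e : (a, b) = a • ((1, 0) : ℕ × ℕ) + b • ((0, 1) : ℕ × ℕ) := by simp
  rw [e, XX_add, XX_nsmul, XX_nsmul]
  have h2 : XX (p := p) (1, 0) ^ a * XX (0, 1) ^ b - 1 =
      (XX (1, 0) ^ a - 1) * XX (0, 1) ^ b + (XX (0, 1) ^ b - 1) := by ring
  rw [h2]
  exact Ideal.add_mem _ (Ideal.mul_mem_right _ _ (h1 _ hx a)) (h1 _ hy b)

theorem one_sub_mem (g : ℕ × ℕ) : 1 - XX g ∈ II p := by
  rw [← neg_sub]
  exact (II p).neg_mem (XX_sub_mem g)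

theorem sub_one_pow [Fact p.Prime] (g : ℕ × ℕ) : (XX (p := p) g - 1) ^ p = XX (p • g) - 1 := by
  have : CharP (RR p) p := charP_of_injective_algebraMap (algebraMap (ZMod p) (RR p)).injective p
  rw [XX_nsmul, sub_pow_char, one_pow]

/-- a product of many elements of `II` lies in a power of `JJ` -/
theorem prod_mem_JJ [Fact p.Prime] {ι : Type*} (s : Finset ι) (r : ι → RR p) (hr : ∀ i ∈ s, r i ∈ II p) {m : ℕ}
    (hm : p * m + p ≤ s.card + 1) : ∏ i ∈ s, r i ∈ JJ p ^ m := by
  classical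
  have hp := (Fact.out : p.Prime).pos
  obtain ⟨x, hx⟩ : ∃ x : RR p, x = XX (1, 0) - 1 := ⟨_, rfl⟩
  obtain ⟨y, hy⟩ : ∃ y : RR p, y = XX (0, 1) - 1 := ⟨_, rfl⟩
  have hxp : x ^ p ∈ JJ p := by
    rw [hx, sub_one_pow]
    exact mem_JJ _
  have hyp : y ^ p ∈ JJ p := by
    rw [hy, sub_one_pow]
    exact mem_JJ _
  have h1 : ∀ i, ∃ a b : RR p, i ∈ s → r i = a * x + b * y := by
    intro i
    by_cases hi : i ∈ s
    · have := hr i hi
      rw [II, Ideal.mem_span_pair] at this
      obtain ⟨a, b, hab⟩ := this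
      exact ⟨a, b, fun _ => by rw [← hab, hx, hy]⟩
    · exact ⟨0, 0, fun h => absurd h hi⟩
  choose a b hab using h1
  rw [Finset.prod_congr rfl fun i hi => hab i hi, Finset.prod_add]
  refine Ideal.sum_mem _ fun t ht => ?_
  rw [mem_powerset] at ht
  rw [Finset.prod_mul_distrib, Finset.prod_mul_distrib, Finset.prod_const, Finset.prod_const]
  have hc : #t + #(s \ t) = #s := by
    rw [add_comm]
    exact card_sdiff_add_card_eq_card ht
  have e : (∏ i ∈ t, a i) * x ^ #t * ((∏ i ∈ s \ t, b i) * y ^ #(s \ t)) =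
      ((∏ i ∈ t, a i) * (∏ i ∈ s \ t, b i)) * (x ^ #t * y ^ #(s \ t)) := by ring
  rw [e]
  refine Ideal.mul_mem_left _ _ ?_
  generalize #t = i at hc
  generalize #(s \ t) = j at hc
  have hi := Nat.div_add_mod i p
  have hj := Nat.div_add_mod j p
  have hi2 := Nat.mod_lt i hp
  have hj2 := Nat.mod_lt j hp
  have hq : m ≤ i / p + j / p := by
    by_contra hcon
    push Not at hcon
    have h3 : p * (i / p + j / p + 1) ≤ p * m := Nat.mul_le_mul_left p hcon
    rw [mul_add, mul_add] at h3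
    omega
  have e2 : x ^ i * y ^ j = ((x ^ p) ^ (i / p) * (y ^ p) ^ (j / p)) * (x ^ (i % p) * y ^ (j % p)) := by
    rw [← pow_mul, ← pow_mul]
    nth_rewrite 1 [← hi]
    nth_rewrite 1 [← hj]
    rw [pow_add, pow_add]
    ring
  rw [e2]
  refine Ideal.mul_mem_right _ _ ?_
  have h5 : (x ^ p) ^ (i / p) * (y ^ p) ^ (j / p) ∈ JJ p ^ (i / p + j / p) := by
    rw [pow_add]
    exact Ideal.mul_mem_mul (Ideal.pow_mem_pow hxp _) (Ideal.pow_mem_pow hyp _)
  exact Ideal.pow_le_pow_right hq h5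

/-- replacing the factors by factors congruent modulo `JJ` -/
theorem prod_sub_mem [Fact p.Prime] {ι : Type*} (s : Finset ι) (r r' : ι → RR p) (hr : ∀ i ∈ s, r i ∈ II p)
    (hr' : ∀ i ∈ s, r' i ∈ II p) (hrr : ∀ i ∈ s, r i - r' i ∈ JJ p) {m : ℕ}
    (hm : p * m + p ≤ s.card) : ∏ i ∈ s, r i - ∏ i ∈ s, r' i ∈ JJ p ^ (m + 1) := by
  classical
  have key : ∀ t ⊆ s, ∏ i ∈ s, (if i ∈ t then r i else r' i) - ∏ i ∈ s, r' i ∈ JJ p ^ (m + 1) := by
    intro t
    induction t using Finset.induction_on with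
    | empty => intro _; simp
    | insert a t ha ih =>
      intro hts
      have has : a ∈ s := hts (mem_insert_self a t)
      have h1 := ih ((subset_insert a t).trans hts)
      have h2 : ∏ i ∈ s, (if i ∈ insert a t then r i else r' i) - ∏ i ∈ s, (if i ∈ t then r i else r' i) ∈
          JJ p ^ (m + 1) := by
        rw [← Finset.mul_prod_erase s _ has, ← Finset.mul_prod_erase s (fun i => if i ∈ t then r i else r' i) has]
        rw [if_pos (mem_insert_self a t), if_neg ha]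
        have h3 : ∏ i ∈ s.erase a, (if i ∈ insert a t then r i else r' i) =
            ∏ i ∈ s.erase a, (if i ∈ t then r i else r' i) := by
          refine Finset.prod_congr rfl fun i hi => ?_
          have hia : i ≠ a := ne_of_mem_erase hi
          by_cases hit : i ∈ t
          · rw [if_pos (mem_insert_of_mem hit), if_pos hit]
          · rw [if_neg hit, if_neg]
            rw [mem_insert]
            tauto
        rw [h3, ← sub_mul, mul_comm (r a - r' a), pow_succ]
        refine Ideal.mul_mem_mul ?_ (hrr a has)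
        refine prod_mem_JJ _ _ (fun i hi => ?_) ?_
        · have his := mem_of_mem_erase hi
          split_ifs
          · exact hr i his
          · exact hr' i his
        · rw [card_erase_of_mem has]
          have : 0 < #s := card_pos.2 ⟨a, has⟩
          omega
      have h4 := Ideal.add_mem _ h2 h1
      rwa [sub_add_sub_cancel] at h4
  have h5 := key s (Subset.refl s)
  rwa [Finset.prod_congr rfl (fun i hi => if_pos hi)] at h5

end H28Dav
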